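import Pool.Agent.H56.ER2.Targets
import Pool.Agent.H48.ER.Lib

/-!
# SG0: outgoing paths which do not see the outer path are even (helper64, board er2_modules)
-/

set_option autoImplicit false

namespace Pool.Agent.H64.ER2

open Pool.Agent.H48.ER Pool.Agent.H52.ER2 Pool.Agent.H66.ER2 Pool.Agent.H56.ER2

theorem pf_ip {V : Type} {G : SimpleGraph V} {n : ℕ} {g : ℕ → V} (h : PF G n g) {i j : ℕ}
    (hij : i ≤ j) (hj : j ≤ n) : IP G (j - i) (g i) (g j) (seg g i j) := by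
  refine ⟨fun k => g (i + k), by simp, ?_, ?_, ?_, ?_⟩
  · show g (i + (j - i)) = g j
    congr 1; omega
  · intro a b ha hb e
    have := h.inj _ _ (by omega) (by omega) e
    omega
  · intro a b ha hb
    show G.Adj (g (i + a)) (g (i + b)) ↔ _
    rw [h.adj _ _ (by omega) (by omega)]
    omega
  · ext v; constructor
    · rintro ⟨k, h1, h2, rfl⟩
      exact ⟨k - i, by omega, by show g (i + (k - i)) = g k; congr 1; omega⟩
    · rintro ⟨k, h1, rfl⟩
      exact ⟨i + k, by omega, by omega, rfl⟩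

theorem pf_SG0 (hHOL : T_HOL) : T_SG0 := by
  intro V G v n z m g hS hF hQ hno
  have hn4 := hF.four
  have hm3 := hQ.three
  have h1 := pf_ip hQ.pf (Nat.zero_le m) le_rfl
  have h2 := pf_ip hS.so.pf (i := 1) (j := n - 1) (by omega) (by omega)
  have hcase : ∀ a, a ≤ m → a = 0 ∨ a = m ∨ (0 < a ∧ a < m) := by
    intro a ha
    omega
  have hd : Disjoint (seg g 0 m) (seg z 1 (n - 1)) := by
    rw [Set.disjoint_left]
    rintro w ⟨a, -, ha, rfl⟩ ⟨k, hk1, hk2, hk⟩
    have hW : g a ∈ Wz n z := ⟨k, by omega, by omega, hk⟩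
    rcases hcase a ha with rfl | rfl | ⟨h3, h4⟩
    · exact (hF.vw _ hW).2 hQ.inA.1
    · exact (hF.vw _ hW).2 hQ.inB.1
    · exact hno a h3 h4 (Or.inl hW)
  have he : ∀ a ∈ seg g 0 m, ∀ b ∈ seg z 1 (n - 1),
      G.Adj a b ↔ (a = g 0 ∧ b = z 1) ∨ (a = g m ∧ b = z (n - 1)) := by
    rintro _ ⟨a, -, ha, rfl⟩ _ ⟨k, hk1, hk2, rfl⟩
    have hW : z k ∈ Wz n z := ⟨k, by omega, by omega, rfl⟩
    constructor
    · intro hadj
      rcases hcase a ha with rfl | rfl | ⟨h3, h4⟩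
      · left
        refine ⟨rfl, ?_⟩
        by_cases hk : k = 1
        · rw [hk]
        · exact absurd hadj (hQ.inA.2.2 k (by omega) (by omega))
      · right
        refine ⟨rfl, ?_⟩
        by_cases hk : k = n - 1
        · rw [hk]
        · exact absurd hadj (hQ.inB.2.2 k (by omega) (by omega))
      · exact absurd (Or.inr ⟨z k, hW, hadj⟩) (hno a h3 h4)
    · rintro (⟨e1, e2⟩ | ⟨e1, e2⟩)
      · rw [e1, e2]
        exact hQ.inA.2.1
      · rw [e1, e2]
        exact hQ.inB.2.1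
  have h3 := hHOL V G (m - 0) (n - 1 - 1) (g 0) (g m) (z 1) (z (n - 1)) _ _ hS.cls.noh h1 h2 hd he
    (by omega)
  obtain ⟨c, hc⟩ := h3
  obtain ⟨d, hd'⟩ := hF.ev
  exact ⟨c + 1 - d, by omega⟩

end Pool.Agent.H64.ER2
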